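import Pool.Agent.Run7.h634.WZ.Law

/-!
# The eigenvalues of `f ⊗ 1 + 1 ⊗ g`
-/

set_option autoImplicit false

open Module TensorProduct

namespace Pool.Agent.Run7.H634.KS

open Pool.Agent.Run7.H634.WZ

/-- The multiset of the sums. -/
def sumM {M : Type*} [Add M] (B B' : Multiset M) : Multiset M :=
  (B ×ˢ B').map fun x => x.1 + x.2

theorem mulM_ofAdd {M : Type*} [AddCommGroup M] (B B' : Multiset M) :
    (sumM B B').map Multiplicative.ofAdd =
      mulM (B.map Multiplicative.ofAdd) (B'.map Multiplicative.ofAdd) := by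
  rw [sumM, mulM, map_product_map, Multiset.map_map, Multiset.map_map]
  rfl

section closed

variable {L V W : Type*} [Field L] [AddCommGroup V] [Module L V] [FiniteDimensional L V]
  [AddCommGroup W] [Module L W] [FiniteDimensional L W]

omit [FiniteDimensional L V] [FiniteDimensional L W] in
/-- The tensor product of generalized eigenvectors is a generalized eigenvector. -/
theorem tmul_mem_gen_add (f : End L V) (g : End L W) {a c : L} {v : V} {w : W}
    (hv : v ∈ f.maxGenEigenspace a) (hw : w ∈ g.maxGenEigenspace c) :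
    v ⊗ₜ[L] w ∈ Module.End.maxGenEigenspace
      (TensorProduct.map f 1 + TensorProduct.map 1 g) (a + c) := by
  rw [End.mem_maxGenEigenspace] at hv hw ⊢
  obtain ⟨m, hm⟩ := hv
  obtain ⟨n, hn⟩ := hw
  let A : End L (V ⊗[L] W) := TensorProduct.map (f - a • 1) 1
  let B : End L (V ⊗[L] W) := TensorProduct.map 1 (g - c • 1)
  have hAB : (TensorProduct.map f 1 + TensorProduct.map 1 g : End L (V ⊗[L] W)) -
      (a + c) • 1 = A + B := by
    apply TensorProduct.ext'
    intro x y
    show (f x ⊗ₜ[L] y + x ⊗ₜ[L] g y) - (a + c) • (x ⊗ₜ[L] y) =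
      (f x - a • x) ⊗ₜ[L] y + x ⊗ₜ[L] (g y - c • y)
    rw [TensorProduct.sub_tmul, TensorProduct.tmul_sub, TensorProduct.tmul_smul,
      ← TensorProduct.smul_tmul' a x y, add_smul]
    abel
  have hcomm : Commute A B := by
    show A * B = B * A
    apply TensorProduct.ext'
    intro x y
    rfl
  have hA : ∀ (i : ℕ) (x : V) (y : W), (A ^ i) (x ⊗ₜ y) = (((f - a • 1) ^ i) x) ⊗ₜ y := by
    intro i
    induction i with
    | zero => intro x y; rfl
    | succ i ih =>
      intro x y
      rw [pow_succ, pow_succ]
      exact ih _ _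
  have hB : ∀ (i : ℕ) (x : V) (y : W), (B ^ i) (x ⊗ₜ y) = x ⊗ₜ (((g - c • 1) ^ i) y) := by
    intro i
    induction i with
    | zero => intro x y; rfl
    | succ i ih =>
      intro x y
      rw [pow_succ, pow_succ]
      exact ih _ _
  refine ⟨m + n, ?_⟩
  rw [hAB, hcomm.add_pow, LinearMap.sum_apply]
  apply Finset.sum_eq_zero
  intro i hi
  rw [Finset.mem_range] at hi
  rw [hcomm.pow_pow i (m + n - i) |>.eq, (Nat.cast_commute _ _).symm.eq]
  rcases le_total m i with h | h
  · have h3 : (A ^ i) (v ⊗ₜ w) = 0 := by
      rw [hA, show i = (i - m) + m by omega, pow_add]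
      show (((f - a • 1) ^ (i - m)) (((f - a • 1) ^ m) v)) ⊗ₜ _ = _
      rw [hm, map_zero, TensorProduct.zero_tmul]
    rw [Module.End.mul_apply, Module.End.mul_apply, h3, map_zero, map_zero]
  · rw [(hcomm.pow_pow i (m + n - i)).symm.eq]
    have h3 : (B ^ (m + n - i)) (v ⊗ₜ w) = 0 := by
      rw [hB, show m + n - i = (m - i) + n by omega, pow_add (g - c • 1)]
      show _ ⊗ₜ (((g - c • 1) ^ (m - i)) (((g - c • 1) ^ n) w)) = _
      rw [hn, map_zero, TensorProduct.tmul_zero]
    rw [Module.End.mul_apply, Module.End.mul_apply, h3, map_zero, map_zero]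

theorem roots_add_closed [IsAlgClosed L] (f : End L V) (g : End L W) :
    (TensorProduct.map f 1 + TensorProduct.map 1 g : End L (V ⊗[L] W)).charpoly.roots =
      sumM f.charpoly.roots g.charpoly.roots := by
  obtain ⟨b, l, hb⟩ := exists_gen_basis f
  obtain ⟨c, k, hc⟩ := exists_gen_basis g
  rw [roots_of_basis f b l hb, roots_of_basis g c k hc,
    roots_of_basis _ (b.tensorProduct c) (fun i => l i.1 + k i.2)
      (fun i => by
        rw [Basis.tensorProduct_apply']
        exact tmul_mem_gen_add f g (hb i.1) (hc i.2))]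
  rw [sumM, ← Finset.univ_product_univ, Finset.product_val, map_product_map, Multiset.map_map]
  rfl

end closed

section
variable {K L V W : Type*} [Field K] [Field L] [Algebra K L] [IsAlgClosed L]
  [AddCommGroup V] [Module K V] [FiniteDimensional K V]
  [AddCommGroup W] [Module K W] [FiniteDimensional K W]

theorem aroots_add (f : End K V) (g : End K W) :
    (TensorProduct.map f 1 + TensorProduct.map 1 g : End K (V ⊗[K] W)).charpoly.aroots L =
      sumM (f.charpoly.aroots L) (g.charpoly.aroots L) := by
  let e : L ⊗[K] (V ⊗[K] W) ≃ₗ[L] (L ⊗[K] V) ⊗[L] (L ⊗[K] W) :=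
    TensorProduct.AlgebraTensorModule.distribBaseChange K L V W
  rw [aroots_eq, aroots_eq, aroots_eq, ← roots_add_closed,
    ← LinearEquiv.charpoly_conj (M₁ := L ⊗[K] (V ⊗[K] W))
      (M₂ := (L ⊗[K] V) ⊗[L] (L ⊗[K] W)) e]
  congr 2
  apply LinearMap.ext
  intro x
  rw [LinearEquiv.conj_apply_apply]
  show TensorProduct.AlgebraTensorModule.distribBaseChange K L V W
    ((TensorProduct.map f 1 + TensorProduct.map 1 g : End K (V ⊗[K] W)).baseChange L
      ((TensorProduct.AlgebraTensorModule.distribBaseChange K L V W).symm x)) = _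
  induction x using TensorProduct.induction_on with
  | zero => simp only [map_zero]
  | add x y hx hy => simp only [map_add, hx, hy]
  | tmul x y =>
    induction x using TensorProduct.induction_on with
    | zero => simp only [TensorProduct.zero_tmul, map_zero]
    | add x x' hx hx' => simp only [TensorProduct.add_tmul, map_add, hx, hx']
    | tmul a v =>
      induction y using TensorProduct.induction_on with
      | zero => simp only [TensorProduct.tmul_zero, map_zero]
      | add y y' hy hy' => simp only [TensorProduct.tmul_add, map_add, hy, hy']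
      | tmul c w =>
        rw [TensorProduct.AlgebraTensorModule.distribBaseChange_symm_tmul,
          LinearMap.baseChange_tmul, LinearMap.add_apply, TensorProduct.map_tmul,
          TensorProduct.map_tmul, TensorProduct.tmul_add, map_add,
          TensorProduct.AlgebraTensorModule.distribBaseChange_tmul,
          TensorProduct.AlgebraTensorModule.distribBaseChange_tmul, LinearMap.add_apply,
          TensorProduct.map_tmul, TensorProduct.map_tmul, LinearMap.baseChange_tmul,
          LinearMap.baseChange_tmul]
        have h1 : ∀ u : V, (a * c) ⊗ₜ[K] u = c • (a ⊗ₜ[K] u) := fun u => by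
          rw [TensorProduct.smul_tmul', smul_eq_mul, mul_comm]
        have h2 : ∀ u : W, c ⊗ₜ[K] u = c • ((1 : L) ⊗ₜ[K] u) := fun u => by
          rw [TensorProduct.smul_tmul', smul_eq_mul, mul_one]
        rw [h1, h1, h2 w, h2 (g w), TensorProduct.smul_tmul, TensorProduct.smul_tmul]
        rfl

end

end Pool.Agent.Run7.H634.KS
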